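import Pool.Agent.Q78.WI.Stm

/-!
# JOB WI-E3: convergence of the moments up to order three from Laplace transforms near `0`
-/

open MeasureTheory Filter Topology Set
open Pool.Agent.Q78.WI

namespace Pool.Agent.Q285.WI

universe v

/-- A sequence dominated by `g t` eventually, for every small `t`, tends to `0` when `g → 0`. -/
theorem tendsto_of_small (e : ℕ → ℝ) (g : ℝ → ℝ) (δ : ℝ) (hδ : 0 < δ) (hg : Continuous g)
    (hg0 : g 0 = 0) (h : ∀ t : ℝ, 0 < t → 2 * t ≤ δ → ∀ᶠ n in atTop, |e n| ≤ g t) :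
    Tendsto e atTop (𝓝 0) := by
  have hgt : Tendsto g (𝓝[>] (0 : ℝ)) (𝓝 0) := (hg.tendsto' 0 0 hg0).mono_left nhdsWithin_le_nhds
  rw [Metric.tendsto_nhds]
  intro ε hε
  have h1 : ∀ᶠ t in 𝓝[>] (0 : ℝ), g t < ε := hgt.eventually_lt_const hε
  have h2 : ∀ᶠ t in 𝓝[>] (0 : ℝ), t < δ / 2 := by
    have : ∀ᶠ t in 𝓝 (0 : ℝ), t < δ / 2 := eventually_lt_nhds (by positivity)
    exact this.filter_mono nhdsWithin_le_nhds
  have h3 : ∀ᶠ t in 𝓝[>] (0 : ℝ), 0 < t := self_mem_nhdsWithin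
  obtain ⟨t, ht1, ht2, ht3⟩ := (h1.and (h2.and h3)).exists
  filter_upwards [h t ht3 (by linarith)] with n hn
  rw [Real.dist_eq, sub_zero]
  exact hn.trans_lt ht1

/-- The coefficients of cubic polynomials that are `O(t⁴)` for every small `t` in the limit tend to
`0`. -/
theorem coef_tendsto (e₀ e₁ e₂ e₃ : ℕ → ℝ) (δ M : ℝ) (hδ : 0 < δ)
    (h : ∀ t : ℝ, |t| ≤ δ → t ≠ 0 → ∀ᶠ n in atTop,
      |e₀ n + e₁ n * t + e₂ n * t ^ 2 + e₃ n * t ^ 3| ≤ M * t ^ 4) :
    Tendsto e₀ atTop (𝓝 0) ∧ Tendsto e₁ atTop (𝓝 0) ∧ Tendsto e₂ atTop (𝓝 0) ∧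
      Tendsto e₃ atTop (𝓝 0) := by
  have hM : 0 ≤ M := by
    obtain ⟨n, hn⟩ := (h δ (by rw [abs_of_pos hδ]) hδ.ne').exists
    have h1 := (abs_nonneg _).trans hn
    by_contra hc
    have : M * δ ^ 4 < 0 := mul_neg_of_neg_of_pos (not_le.mp hc) (by positivity)
    linarith
  have key : ∀ t : ℝ, 0 < t → 2 * t ≤ δ → ∀ᶠ n in atTop,
      |e₀ n| ≤ 8 * M * t ^ 4 ∧ |e₁ n| ≤ 4 * M * t ^ 3 ∧ |e₂ n| ≤ 6 * M * t ^ 2 ∧
        |e₃ n| ≤ 3 * M * t := by
    intro t ht htδ
    have h1 := h t (by rw [abs_of_pos ht]; linarith) ht.ne'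
    have h2 := h (-t) (by rw [abs_neg, abs_of_pos ht]; linarith) (neg_ne_zero.mpr ht.ne')
    have h3 := h (2 * t) (by rw [abs_of_pos (by positivity)]; linarith) (by positivity)
    have h4 := h (-(2 * t)) (by rw [abs_neg, abs_of_pos (by positivity)]; linarith)
      (neg_ne_zero.mpr (by positivity))
    filter_upwards [h1, h2, h3, h4] with n g1 g2 g3 g4
    rw [abs_le] at g1 g2 g3 g4
    obtain ⟨g11, g12⟩ := g1
    obtain ⟨g21, g22⟩ := g2
    obtain ⟨g31, g32⟩ := g3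
    obtain ⟨g41, g42⟩ := g4
    have hMt : 0 ≤ M * t ^ 4 := by positivity
    have k0 : |e₀ n| ≤ 8 * M * t ^ 4 := by
      rw [abs_le]
      constructor <;> linarith
    have k1 : |e₁ n * t| ≤ 4 * M * t ^ 4 := by
      rw [abs_le]
      constructor <;> linarith
    have k2 : |e₂ n * t ^ 2| ≤ 6 * M * t ^ 4 := by
      rw [abs_le]
      constructor <;> linarith
    have k3 : |e₃ n * t ^ 3| ≤ 3 * M * t ^ 4 := by
      rw [abs_le]
      constructor <;> linarith
    rw [abs_mul, abs_of_pos ht] at k1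
    rw [abs_mul, abs_of_pos (by positivity : (0 : ℝ) < t ^ 2)] at k2
    rw [abs_mul, abs_of_pos (by positivity : (0 : ℝ) < t ^ 3)] at k3
    refine ⟨k0, ?_, ?_, ?_⟩
    · refine le_of_mul_le_mul_right ?_ ht
      linarith
    · refine le_of_mul_le_mul_right ?_ (by positivity : (0 : ℝ) < t ^ 2)
      linarith
    · refine le_of_mul_le_mul_right ?_ (by positivity : (0 : ℝ) < t ^ 3)
      linarith
  refine ⟨?_, ?_, ?_, ?_⟩
  · refine tendsto_of_small e₀ (fun t => 8 * M * t ^ 4) δ hδ (by fun_prop) (by simp) ?_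
    intro t ht ht2
    filter_upwards [key t ht ht2] with n hn using hn.1
  · refine tendsto_of_small e₁ (fun t => 4 * M * t ^ 3) δ hδ (by fun_prop) (by simp) ?_
    intro t ht ht2
    filter_upwards [key t ht ht2] with n hn using hn.2.1
  · refine tendsto_of_small e₂ (fun t => 6 * M * t ^ 2) δ hδ (by fun_prop) (by simp) ?_
    intro t ht ht2
    filter_upwards [key t ht ht2] with n hn using hn.2.2.1
  · refine tendsto_of_small e₃ (fun t => 3 * M * t) δ hδ (by fun_prop) (by simp) ?_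
    intro t ht ht2
    filter_upwards [key t ht ht2] with n hn using hn.2.2.2

/-- Third-order Taylor bound for the real exponential. -/
theorem exp_taylor (x : ℝ) :
    |Real.exp x - (1 + x + x ^ 2 / 2 + x ^ 3 / 6)| ≤ |x| ^ 4 * Real.exp |x| := by
  have h := Complex.norm_exp_sub_sum_le_norm_mul_exp (x : ℂ) 4
  have h2 : Complex.exp (x : ℂ) - ∑ m ∈ Finset.range 4, (x : ℂ) ^ m / (m.factorial : ℂ)
      = ((Real.exp x - (1 + x + x ^ 2 / 2 + x ^ 3 / 6) : ℝ) : ℂ) := by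
    simp only [Finset.sum_range_succ, Finset.sum_range_zero, Nat.factorial]
    push_cast
    ring
  rw [h2, Complex.norm_real, Complex.norm_real, Real.norm_eq_abs, Real.norm_eq_abs] at h
  exact h

/-- `e^{δ|x|} ≤ e^{δx} + e^{-δx}` in the form used below. -/
theorem exp_abs_le (δ x : ℝ) :
    Real.exp (δ * |x|) ≤ Real.exp (-(δ * x)) + Real.exp (-(-δ * x)) := by
  rcases abs_cases x with ⟨h, _⟩ | ⟨h, _⟩
  · rw [h]
    have : -(-δ * x) = δ * x := by ring
    rw [this]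
    linarith [Real.exp_pos (-(δ * x))]
  · rw [h]
    have : δ * -x = -(δ * x) := by ring
    rw [this]
    linarith [Real.exp_pos (-(-δ * x))]

/-- Powers are dominated by the exponential. -/
theorem pow_le_exp (δ x : ℝ) (hδ : 0 < δ) (k : ℕ) :
    |x| ^ k ≤ (k.factorial / δ ^ k) * Real.exp (δ * |x|) := by
  have h := Real.pow_div_factorial_le_exp (x := δ * |x|) (by positivity) k
  have hk : (0 : ℝ) < k.factorial := by exact_mod_cast k.factorial_pos
  have hd : 0 < δ ^ k := by positivity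
  rw [mul_pow, div_le_iff₀ hk] at h
  rw [div_mul_eq_mul_div, le_div_iff₀ hd]
  linarith

/-- The pointwise bound for the remainder. -/
theorem remainder (δ t x : ℝ) (hδ : 0 < δ) (ht : |t| ≤ δ / 2) :
    |Real.exp (-(t * x)) - (1 - t * x + t ^ 2 / 2 * x ^ 2 - t ^ 3 / 6 * x ^ 3)|
      ≤ 384 / δ ^ 4 * t ^ 4 * (Real.exp (-(δ * x)) + Real.exp (-(-δ * x))) := by
  have h1 := exp_taylor (-(t * x))
  have e1 : (1 + -(t * x) + (-(t * x)) ^ 2 / 2 + (-(t * x)) ^ 3 / 6)
      = 1 - t * x + t ^ 2 / 2 * x ^ 2 - t ^ 3 / 6 * x ^ 3 := by ring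
  rw [e1] at h1
  refine h1.trans ?_
  have e2 : |-(t * x)| = |t| * |x| := by rw [abs_neg, abs_mul]
  rw [e2]
  have h2 : Real.exp (|t| * |x|) ≤ Real.exp (δ / 2 * |x|) := by
    apply Real.exp_le_exp.mpr
    exact mul_le_mul_of_nonneg_right ht (abs_nonneg _)
  have h3 := pow_le_exp (δ / 2) x (by positivity) 4
  have h4 := exp_abs_le δ x
  have e3 : ((Nat.factorial 4 : ℕ) : ℝ) / (δ / 2) ^ 4 = 384 / δ ^ 4 := by
    have : ((Nat.factorial 4 : ℕ) : ℝ) = 24 := by
      norm_num [Nat.factorial]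
    rw [this, div_pow]
    field_simp
    norm_num
  rw [e3] at h3
  have e4 : (|t| * |x|) ^ 4 = t ^ 4 * |x| ^ 4 := by
    rw [mul_pow]
    congr 1
    exact Even.pow_abs ⟨2, rfl⟩ t
  rw [e4]
  calc t ^ 4 * |x| ^ 4 * Real.exp (|t| * |x|)
      ≤ t ^ 4 * (384 / δ ^ 4 * Real.exp (δ / 2 * |x|)) * Real.exp (δ / 2 * |x|) := by
        gcongr
    _ = 384 / δ ^ 4 * t ^ 4 * Real.exp (δ * |x|) := by
        have : Real.exp (δ * |x|) = Real.exp (δ / 2 * |x|) * Real.exp (δ / 2 * |x|) := by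
          rw [← Real.exp_add]
          congr 1
          ring
        rw [this]
        ring
    _ ≤ 384 / δ ^ 4 * t ^ 4 * (Real.exp (-(δ * x)) + Real.exp (-(-δ * x))) := by
        gcongr

theorem e3 : S_E3.{v} := by
  intro Ω _ P w Y f δ K a₀ a₁ a₂ a₃ hδ hwm hYm hw hint hlim hf
  have habs1 : |δ| ≤ δ := by rw [abs_of_pos hδ]
  have habs2 : |-δ| ≤ δ := by rw [abs_neg, abs_of_pos hδ]
  -- the dominating function
  have hG : ∀ n, Integrable (fun ω => Real.exp (-(δ * Y n ω)) * w n ω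
      + Real.exp (-(-δ * Y n ω)) * w n ω) P := fun n =>
    (hint n δ habs1).add (hint n (-δ) habs2)
  -- integrability of the moments
  have hmom : ∀ n, ∀ k : ℕ, Integrable (fun ω => Y n ω ^ k * w n ω) P := by
    intro n k
    refine Integrable.mono' ((hG n).const_mul (k.factorial / δ ^ k))
      (((hYm n).pow_const k).mul (hwm n)).aestronglyMeasurable (ae_of_all _ fun ω => ?_)
    rw [Real.norm_eq_abs, abs_mul, abs_pow, abs_of_nonneg (hw n ω)]
    have h1 := pow_le_exp δ (Y n ω) hδ k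
    have h2 := exp_abs_le δ (Y n ω)
    have hc : (0 : ℝ) ≤ k.factorial / δ ^ k := by positivity
    have h3 : |Y n ω| ^ k ≤ (k.factorial / δ ^ k) *
        (Real.exp (-(δ * Y n ω)) + Real.exp (-(-δ * Y n ω))) :=
      h1.trans (mul_le_mul_of_nonneg_left h2 hc)
    calc |Y n ω| ^ k * w n ω
        ≤ ((k.factorial / δ ^ k) *
          (Real.exp (-(δ * Y n ω)) + Real.exp (-(-δ * Y n ω)))) * w n ω :=
          mul_le_mul_of_nonneg_right h3 (hw n ω)
      _ = _ := by ring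
  have hm0 : ∀ n, Integrable (fun ω => w n ω) P := by
    intro n
    have := hmom n 0
    simpa using this
  have hm1 : ∀ n, Integrable (fun ω => Y n ω * w n ω) P := by
    intro n
    have := hmom n 1
    simpa using this
  -- the bound of the remainder
  set B : ℝ := f δ + f (-δ) + 1 with hB
  have hBn : ∀ᶠ n in atTop, ∫ ω, (Real.exp (-(δ * Y n ω)) * w n ω
      + Real.exp (-(-δ * Y n ω)) * w n ω) ∂P ≤ B := by
    have h1 : Tendsto (fun n => ∫ ω, (Real.exp (-(δ * Y n ω)) * w n ω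
        + Real.exp (-(-δ * Y n ω)) * w n ω) ∂P) atTop (𝓝 (f δ + f (-δ))) := by
      have h2 := (hlim δ habs1).add (hlim (-δ) habs2)
      refine h2.congr fun n => ?_
      rw [integral_add (hint n δ habs1) (hint n (-δ) habs2)]
    exact h1.eventually_le_const (by rw [hB]; linarith)
  have hrem : ∀ t : ℝ, |t| ≤ δ / 2 → ∀ n,
      |∫ ω, Real.exp (-(t * Y n ω)) * w n ω ∂P - (∫ ω, w n ω ∂P - t * ∫ ω, Y n ω * w n ω ∂P
        + t ^ 2 / 2 * ∫ ω, Y n ω ^ 2 * w n ω ∂P - t ^ 3 / 6 * ∫ ω, Y n ω ^ 3 * w n ω ∂P)|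
      ≤ 384 / δ ^ 4 * t ^ 4 * ∫ ω, (Real.exp (-(δ * Y n ω)) * w n ω
        + Real.exp (-(-δ * Y n ω)) * w n ω) ∂P := by
    intro t ht n
    have htδ : |t| ≤ δ := ht.trans (by linarith)
    have i0 := hint n t htδ
    have i1 := (hm1 n).const_mul t
    have i2 := (hmom n 2).const_mul (t ^ 2 / 2)
    have i3 := (hmom n 3).const_mul (t ^ 3 / 6)
    have j1 : Integrable (fun ω => w n ω - t * (Y n ω * w n ω)) P := (hm0 n).sub i1
    have j2 : Integrable (fun ω => w n ω - t * (Y n ω * w n ω)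
      + t ^ 2 / 2 * (Y n ω ^ 2 * w n ω)) P := j1.add i2
    have j3 : Integrable (fun ω => w n ω - t * (Y n ω * w n ω)
      + t ^ 2 / 2 * (Y n ω ^ 2 * w n ω) - t ^ 3 / 6 * (Y n ω ^ 3 * w n ω)) P := j2.sub i3
    have e1 : ∫ ω, Real.exp (-(t * Y n ω)) * w n ω ∂P - (∫ ω, w n ω ∂P
        - t * ∫ ω, Y n ω * w n ω ∂P
        + t ^ 2 / 2 * ∫ ω, Y n ω ^ 2 * w n ω ∂P - t ^ 3 / 6 * ∫ ω, Y n ω ^ 3 * w n ω ∂P)
        = ∫ ω, (Real.exp (-(t * Y n ω)) * w n ω - (w n ω - t * (Y n ω * w n ω)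
          + t ^ 2 / 2 * (Y n ω ^ 2 * w n ω) - t ^ 3 / 6 * (Y n ω ^ 3 * w n ω))) ∂P := by
      rw [integral_sub i0 j3, integral_sub j2 i3, integral_add j1 i2, integral_sub (hm0 n) i1,
        integral_const_mul, integral_const_mul, integral_const_mul]
    rw [e1, ← integral_const_mul]
    refine (abs_integral_le_integral_abs).trans ?_
    refine integral_mono ?_ ((hG n).const_mul _) ?_
    · exact (i0.sub j3).abs
    · intro ω
      have h1 := remainder δ t (Y n ω) hδ ht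
      have h2 := mul_le_mul_of_nonneg_right h1 (hw n ω)
      have e2 : (Real.exp (-(t * Y n ω)) * w n ω - (w n ω - t * (Y n ω * w n ω)
          + t ^ 2 / 2 * (Y n ω ^ 2 * w n ω) - t ^ 3 / 6 * (Y n ω ^ 3 * w n ω)))
          = (Real.exp (-(t * Y n ω)) - (1 - t * Y n ω + t ^ 2 / 2 * Y n ω ^ 2
            - t ^ 3 / 6 * Y n ω ^ 3)) * w n ω := by ring
      simp only []
      rw [e2, abs_mul, abs_of_nonneg (hw n ω)]
      refine h2.trans (le_of_eq ?_)
      ring
  -- the coefficients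
  have hcoef := coef_tendsto (fun n => ∫ ω, w n ω ∂P - a₀)
    (fun n => -(∫ ω, Y n ω * w n ω ∂P) - a₁)
    (fun n => (∫ ω, Y n ω ^ 2 * w n ω ∂P) / 2 - a₂)
    (fun n => -(∫ ω, Y n ω ^ 3 * w n ω ∂P) / 6 - a₃) (δ / 2) (384 / δ ^ 4 * B + K + 1)
    (by positivity) (by
      intro t ht ht0
      have htδ : |t| ≤ δ := ht.trans (by linarith)
      have ht4 : 0 < t ^ 4 := by positivity
      have h1 : ∀ᶠ n in atTop, |∫ ω, Real.exp (-(t * Y n ω)) * w n ω ∂P - f t| < t ^ 4 := by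
        have := Metric.tendsto_nhds.mp (hlim t htδ) (t ^ 4) ht4
        filter_upwards [this] with n hn
        rwa [Real.dist_eq] at hn
      filter_upwards [h1, hBn] with n hn1 hn2
      have h2 := hrem t ht n
      have h3 := hf t htδ
      have h4 : 384 / δ ^ 4 * t ^ 4 * ∫ ω, (Real.exp (-(δ * Y n ω)) * w n ω
        + Real.exp (-(-δ * Y n ω)) * w n ω) ∂P ≤ 384 / δ ^ 4 * t ^ 4 * B :=
        mul_le_mul_of_nonneg_left hn2 (by positivity)
      have h5 := h2.trans h4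
      rw [abs_le] at h3 h5 ⊢
      rw [abs_lt] at hn1
      obtain ⟨h31, h32⟩ := h3
      obtain ⟨h51, h52⟩ := h5
      obtain ⟨h11, h12⟩ := hn1
      constructor <;> nlinarith)
  obtain ⟨c0, c1, c2, c3⟩ := hcoef
  refine ⟨fun n k _ => hmom n k, ?_, ?_, ?_, ?_⟩
  · have := c0.add_const a₀
    simpa using this
  · have := (c1.add_const a₁).neg
    simpa using this
  · have := (c2.add_const a₂).const_mul 2
    refine (this.congr fun n => ?_).trans (by simp)
    ring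
  · have := (c3.add_const a₃).const_mul (-6)
    refine (this.congr fun n => ?_).trans (by simp)
    ring

end Pool.Agent.Q285.WI
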